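import Pool.Agent.Run7.h16.NC.Ext

/-!
Quotients by the commutators of a normal subgroup with one-dimensional homology
-/

set_option linter.unusedSectionVars false
set_option linter.unusedVariables false

namespace Run7.h16.NC

open Finsupp Pool.Agent.R615.KU
open Pool.Agent.Y483 (T T_ext cone mp dd HQ hqMap Rpr exists_rpr exists_class Cyc tQ)

open scoped commutatorElement

noncomputable section

theorem bd_one {V : Type*} (c : V) : bd (single [c] (1 : ℚ)) = single [] 1 := by
  rw [← cn_single, bd_cn, bd_nil, map_zero, sub_zero]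

theorem bd_two {V : Type*} (b c : V) :
    bd (single [b, c] (1 : ℚ)) = single [c] 1 - single [b] 1 := by
  rw [← cn_single, bd_cn, bd_one, cn_single]

theorem bd_three {V : Type*} (a b c : V) :
    bd (single [a, b, c] (1 : ℚ)) = single [b, c] 1 - single [a, c] 1 + single [a, b] 1 := by
  rw [← cn_single, bd_cn, bd_two, map_sub, cn_single, cn_single]
  abel

variable {G S : Type} [Group G] [Group S] (K : Subgroup G) [K.Normal] {f : G →* S}

/-- The boundaries of chains of a given degree. -/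
def BB (n : ℕ) : Submodule ℚ (CC K) := (LLC K n).map (bC K)

variable {K}

theorem tC_BB {n : ℕ} (g : G) (c : CC K) (hc : c ∈ BB K n) : tC K g c ∈ BB K n := by
  obtain ⟨c', hc', rfl⟩ := hc
  rw [← bC_tC]
  exact Submodule.mem_map_of_mem (tC_LLC g hc')

theorem mk_tri (a b c : G) : (J K).mkQ (single [b, c] 1) - (J K).mkQ (single [a, c] 1) +
    (J K).mkQ (single [a, b] 1) ∈ BB K 3 := by
  rw [← map_sub, ← map_add, ← bd_three, ← bC_mk]
  exact Submodule.mem_map_of_mem (mk_LLC (single_mem_LL rfl _))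

theorem mk_pair (a b : G) : (J K).mkQ (single [a, b] 1) =
    tC K a ((J K).mkQ (single [1, a⁻¹ * b] 1)) := by
  rw [tC_mk, P_single, List.map_cons, List.map_cons, List.map_nil, mul_one, mul_inv_cancel_left]

/-- The elements of `K` whose edge is a boundary. -/
def NN (K : Subgroup G) [K.Normal] : Subgroup G where
  carrier := {g | g ∈ K ∧ (J K).mkQ (single [1, g] 1) ∈ BB K 3}
  one_mem' := ⟨K.one_mem, by
    have h1 := mk_tri (K := K) (1 : G) 1 1
    rwa [sub_self, zero_add] at h1⟩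
  mul_mem' := by
    rintro a b ⟨ha, ha'⟩ ⟨hb, hb'⟩
    refine ⟨K.mul_mem ha hb, ?_⟩
    have h1 := mk_tri (K := K) (1 : G) a (a * b)
    rw [mk_pair a (a * b), inv_mul_cancel_left, tC_of_mem ha] at h1
    have h2 := Submodule.sub_mem _ (Submodule.add_mem _ hb' ha') h1
    have h3 : (J K).mkQ (single [1, b] 1) + (J K).mkQ (single [1, a] 1) -
        ((J K).mkQ (single [1, b] 1) - (J K).mkQ (single [1, a * b] 1) +
          (J K).mkQ (single [1, a] 1)) = (J K).mkQ (single [1, a * b] 1) := by abel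
    rw [h3] at h2
    exact h2
  inv_mem' := by
    rintro a ⟨ha, ha'⟩
    refine ⟨K.inv_mem ha, ?_⟩
    have h0 : (J K).mkQ (single [(1 : G), 1] 1) ∈ BB K 3 := by
      have h1 := mk_tri (K := K) (1 : G) 1 1
      rwa [sub_self, zero_add] at h1
    have h1 := mk_tri (K := K) (1 : G) a 1
    rw [mk_pair a 1, mul_one, tC_of_mem ha] at h1
    have h2 := Submodule.add_mem _ (Submodule.sub_mem _ h1 ha') h0
    have h3 : (J K).mkQ (single [1, a⁻¹] 1) - (J K).mkQ (single [(1 : G), 1] 1) +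
        (J K).mkQ (single [1, a] 1) - (J K).mkQ (single [1, a] 1) +
          (J K).mkQ (single [(1 : G), 1] 1) = (J K).mkQ (single [1, a⁻¹] 1) := by abel
    rw [h3] at h2
    exact h2

/-- The edges of `K` are additive modulo boundaries. -/
theorem mk_add {a b : G} (ha : a ∈ K) : (J K).mkQ (single [1, a * b] 1) -
    ((J K).mkQ (single [1, a] 1) + (J K).mkQ (single [1, b] 1)) ∈ BB K 3 := by
  have h1 := mk_tri (K := K) (1 : G) a (a * b)
  rw [mk_pair a (a * b), inv_mul_cancel_left, tC_of_mem ha] at h1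
  have h2 := Submodule.neg_mem _ h1
  have h3 : -((J K).mkQ (single [1, b] 1) - (J K).mkQ (single [1, a * b] 1) +
      (J K).mkQ (single [1, a] 1)) = (J K).mkQ (single [1, a * b] 1) -
    ((J K).mkQ (single [1, a] 1) + (J K).mkQ (single [1, b] 1)) := by abel
  rw [h3] at h2
  exact h2

theorem commutator_le : (⁅K, K⁆ : Subgroup G) ≤ NN K := by
  rw [Subgroup.commutator_le]
  intro a ha b hb
  refine ⟨Subgroup.commutator_le_left K K (Subgroup.commutator_mem_commutator ha hb), ?_⟩
  let e : G → CC K := fun g => (J K).mkQ (single [1, g] 1)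
  have hadd : ∀ {x y : G}, x ∈ K → e (x * y) - (e x + e y) ∈ BB K 3 := fun hx => mk_add hx
  have hone : e 1 ∈ BB K 3 := (NN K).one_mem.2
  have hai := K.inv_mem ha
  have h1 := hadd (x := a) (y := b * (a⁻¹ * b⁻¹)) ha
  have h2 := hadd (x := b) (y := a⁻¹ * b⁻¹) hb
  have h3 := hadd (x := a⁻¹) (y := b⁻¹) hai
  have h4 := hadd (x := a) (y := a⁻¹) ha
  have h5 := hadd (x := b) (y := b⁻¹) hb
  rw [mul_inv_cancel] at h4 h5
  have h6 := Submodule.add_mem _ (Submodule.sub_mem _ (Submodule.sub_mem _ (Submodule.add_mem _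
    (Submodule.add_mem _ h1 h2) h3) h4) h5) (Submodule.add_mem _ hone hone)
  change e ⁅a, b⁆ ∈ BB K 3
  have h7 : ⁅a, b⁆ = a * (b * (a⁻¹ * b⁻¹)) := by
    rw [commutatorElement_def]
    group
  rw [h7]
  convert h6 using 1
  abel

theorem NN_root {g : G} (hg : g ∈ K) {n : ℕ} (hn : 0 < n) (h : g ^ n ∈ NN K) : g ∈ NN K := by
  refine ⟨hg, ?_⟩
  have h1 : ∀ m : ℕ, (J K).mkQ (single [1, g ^ m] 1) - (m : ℚ) • (J K).mkQ (single [1, g] 1) ∈
      BB K 3 := by
    intro m
    induction m with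
    | zero =>
      rw [pow_zero, Nat.cast_zero, zero_smul, sub_zero]
      exact (NN K).one_mem.2
    | succ m ih =>
      have h2 := Submodule.add_mem _ (mk_add (K := K) (a := g) (b := g ^ m) hg) ih
      rw [← pow_succ'] at h2
      convert h2 using 1
      push_cast
      rw [add_smul, one_smul]
      abel
  have h2 := Submodule.sub_mem _ h.2 (h1 n)
  rw [sub_sub_cancel] at h2
  have h3 := Submodule.smul_mem _ ((n : ℚ)⁻¹) h2
  rw [smul_smul, inv_mul_cancel₀ (by exact_mod_cast hn.ne'), one_smul] at h3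
  exact h3

/-- The class of a homogeneous chain, zero on the empty list. -/
def mk0 (K : Subgroup G) : LC G →ₗ[ℚ] CC K := Finsupp.linearCombination ℚ (fun l => match l with
  | [] => 0
  | s :: l => (J K).mkQ (single (s :: l) 1))

theorem mk0_nil : mk0 K (single [] 1) = 0 := by
  simp [mk0]

theorem mk0_cons (s : G) (l : List G) : mk0 K (single (s :: l) 1) =
    (J K).mkQ (single (s :: l) 1) := by
  simp [mk0]

theorem mk0_eq {n : ℕ} {z : LC G} (hz : z ∈ LL G (n + 1)) : mk0 K z = (J K).mkQ z :=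
  LL_ext (f := mk0 K) (g := (J K).mkQ) (fun l hl => by
    obtain ⟨x, l, rfl⟩ := List.exists_cons_of_length_eq_add_one hl
    exact mk0_cons x l) hz

theorem equi_mk0 : Equi K (MonoidHom.id G) (mk0 K) where
  nil := mk0_nil
  eqv g z := by
    have h : (mk0 K) ∘ₗ (P (fun y => g * y)) = (tC K g) ∘ₗ (mk0 K) := by
      apply LC_ext
      intro l
      rw [LinearMap.comp_apply, LinearMap.comp_apply, P_single]
      cases l with
      | nil => rw [List.map_nil, mk0_nil, map_zero]
      | cons s l => rw [List.map_cons, mk0_cons, mk0_cons, tC_mk, P_single, List.map_cons]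
    exact DFunLike.congr_fun h z

theorem Equi.comp_P {V : LC S →ₗ[ℚ] CC K} (h : Equi K f V) :
    Equi K (MonoidHom.id G) (V ∘ₗ (P f)) where
  nil := by rw [LinearMap.comp_apply, P_single, List.map_nil, h.nil]
  eqv g z := by
    have h1 : (fun v => f ((fun y => g * y) v)) = fun v => (fun y => f g * y) (f v) :=
      funext fun v => map_mul f g v
    rw [LinearMap.comp_apply, LinearMap.comp_apply]
    change V (P f (P (fun y => g * y) z)) = tC K g (V (P f z))
    rw [← h.eqv, P_comp, P_comp, h1]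

/-- The chain map from the chains of the quotient and the homotopy, in one degree. -/
structure St (K : Subgroup G) [K.Normal] (f : G →* S) (m : ℕ) (γ : LC S →ₗ[ℚ] CC K)
    (η η' : LC G →ₗ[ℚ] CC K) : Prop where
  hγ : Equi K f γ
  γmem : ∀ z ∈ LL S (m + 1), γ z ∈ LLC K (m + 1)
  γbd : ∀ l : List S, l.length = m + 1 → γ (bd (single (1 :: l) 1)) ∈ BB K (m + 2)
  hη : Equi K (MonoidHom.id G) η
  hη' : Equi K (MonoidHom.id G) η'
  ηmem : ∀ z ∈ LL G (m + 1), η z ∈ LLC K (m + 2)
  rel : ∀ z ∈ LL G (m + 1), bC K (η z) = γ (P f z) - (J K).mkQ z - η' (bd z)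

variable (hf : Function.Surjective f) (hk : ∀ g, f g = 1 → g ∈ NN K)

include hk in
theorem mem_K (g : G) (hg : f g = 1) : g ∈ K := (hk g hg).1

include hf hk in
theorem st_one : ∃ γ η η', St K f 1 γ η η' := by
  classical
  have hk' := mem_K hk
  choose σ hσ using hf
  have hf : Function.Surjective f := fun s => ⟨σ s, hσ s⟩
  obtain ⟨γ, hγ, hv⟩ := exists_ext hf hk' (fun l => match l with
    | [s] => (J K).mkQ (single [1, σ s] 1)
    | _ => 0)
  have hγ1 : ∀ s, γ (single [1, s] 1) = (J K).mkQ (single [1, σ s] 1) := fun s => hv [s]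
  -- the values on edges
  have hstar : ∀ z ∈ LL G (1 + 1), γ (P f z) - (J K).mkQ z ∈ BB K 3 := by
    intro z hz
    have h1 := (hγ.comp_P.sub equi_mk0).mem Function.surjective_id (BB K 3)
      (fun g c hc => tC_BB g c hc) (m := 1) (fun l hl => by
        obtain ⟨g, rfl⟩ := List.length_eq_one_iff.1 hl
        rw [LinearMap.sub_apply, LinearMap.comp_apply, P_single, List.map_cons, List.map_cons,
          List.map_nil, map_one, hγ1, mk0_cons]
        have h2 : g⁻¹ * σ (f g) ∈ NN K := hk _ (by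
          rw [map_mul, map_inv, hσ, inv_mul_cancel])
        have h3 := mk_tri (K := K) (1 : G) g (σ (f g))
        rw [mk_pair g (σ (f g))] at h3
        have h4 := Submodule.sub_mem _ (tC_BB g _ h2.2) h3
        convert h4 using 1
        abel) hz
    rw [LinearMap.sub_apply, mk0_eq hz] at h1
    exact h1
  obtain ⟨η, hη, hη1, hη2⟩ := exists_lift (f := MonoidHom.id G) Function.surjective_id
    (fun g hg => by rw [show g = 1 from hg]; exact K.one_mem) (n := 3) (m := 1)
    (U := γ ∘ₗ (P f) - mk0 K) (hγ.comp_P.sub equi_mk0) (fun l hl => by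
      have h1 : (single (1 :: l) 1 : LC G) ∈ LL G (1 + 1) :=
        single_mem_LL (by rw [List.length_cons, hl]) 1
      rw [LinearMap.sub_apply, mk0_eq h1]
      exact hstar _ h1)
  refine ⟨γ, η, 0, ⟨hγ, ?_, ?_, hη, ⟨by simp, fun g z => by simp⟩, hη1, ?_⟩⟩
  · intro z hz
    refine hγ.mem hf (LLC K (1 + 1)) (fun g c hc => tC_LLC g hc) (fun l hl => ?_) hz
    obtain ⟨s, rfl⟩ := List.length_eq_one_iff.1 hl
    rw [hγ1]
    exact mk_LLC (single_mem_LL rfl _)
  · intro l hl
    have h1 : (single (1 :: l) 1 : LC S) = P f (single (1 :: l.map σ) 1) := by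
      rw [P_single, List.map_cons, map_one, List.map_map]
      have h2 : (f ∘ σ) = fun y => y := funext hσ
      rw [h2, List.map_id']
    have h2 : (single (1 :: l.map σ) 1 : LC G) ∈ LL G (1 + 1 + 1) :=
      single_mem_LL (by rw [List.length_cons, List.length_map, hl]) 1
    rw [h1, ← P_bd]
    have h3 := hstar _ (bd_LL h2)
    have h4 : (J K).mkQ (bd (single (1 :: l.map σ) 1)) ∈ BB K 3 := by
      rw [← bC_mk]
      exact Submodule.mem_map_of_mem (mk_LLC h2)
    have h5 := Submodule.add_mem _ h3 h4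
    rwa [sub_add_cancel] at h5
  · intro z hz
    rw [hη2 z hz, LinearMap.sub_apply, mk0_eq hz, LinearMap.zero_apply, sub_zero]
    rfl

include hf hk in
theorem st_succ {m : ℕ} (hK : ∀ x : HQ (m + 1) K, x = 0) {γ : LC S →ₗ[ℚ] CC K}
    {η η' : LC G →ₗ[ℚ] CC K} (h : St K f m γ η η') :
    ∃ γ' η'', St K f (m + 1) γ' η'' η ∧ ∀ z ∈ LL S (m + 1 + 1), bC K (γ' z) = γ (bd z) := by
  have hk' := mem_K hk
  obtain ⟨γ', hγ', hγ1, hγ2'⟩ := exists_lift hf hk' (n := m + 2) (m := m + 1)
    h.hγ.bd (fun l hl => h.γbd l hl)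
  have hγ2 : ∀ z ∈ LL S (m + 1 + 1), bC K (γ' z) = γ (bd z) := hγ2'
  have hU : Equi K (MonoidHom.id G) (γ' ∘ₗ (P f) - mk0 K - η ∘ₗ bd) :=
    (hγ'.comp_P.sub equi_mk0).sub h.hη.bd
  have hUv : ∀ z ∈ LL G (m + 1 + 1), (γ' ∘ₗ (P f) - mk0 K - η ∘ₗ bd) z =
      γ' (P f z) - (J K).mkQ z - η (bd z) := by
    intro z hz
    rw [LinearMap.sub_apply, LinearMap.sub_apply, mk0_eq hz]
    rfl
  obtain ⟨η'', hη'', h1, h2⟩ := exists_lift (f := MonoidHom.id G) Function.surjective_id
    (fun g hg => by rw [show g = 1 from hg]; exact K.one_mem) (n := m + 1 + 2) (m := m + 1)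
    hU (fun l hl => by
      have h3 : (single (1 :: l) 1 : LC G) ∈ LL G (m + 1 + 1) :=
        single_mem_LL (by rw [List.length_cons, hl]) 1
      rw [hUv _ h3]
      have h4 : γ' (P f (single (1 :: l) 1)) - (J K).mkQ (single (1 :: l) 1) -
          η (bd (single (1 :: l) 1)) ∈ LLC K (m + 1 + 1) :=
        Submodule.sub_mem _ (Submodule.sub_mem _ (hγ1 _ (P_LL _ h3)) (mk_LLC h3))
          (h.ηmem _ (bd_LL h3))
      have h5 : bC K (γ' (P f (single (1 :: l) 1)) - (J K).mkQ (single (1 :: l) 1) -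
          η (bd (single (1 :: l) 1))) = 0 := by
        rw [map_sub, map_sub, hγ2 _ (P_LL _ h3), bC_mk, h.rel _ (bd_LL h3), bd_bd, map_zero,
          sub_zero, P_bd, sub_self]
      obtain ⟨c', hc', hc''⟩ := exact K hK h4 h5
      exact ⟨c', hc', hc''⟩)
  refine ⟨γ', η'', ⟨hγ', hγ1, ?_, hη'', h.hη, h1, ?_⟩, hγ2⟩
  · intro l hl
    have h3 : (single (1 :: l) 1 : LC S) ∈ LL S (m + 1 + 1 + 1) :=
      single_mem_LL (by rw [List.length_cons, hl]) 1
    have h4 := hγ1 _ (bd_LL h3)
    have h5 : bC K (γ' (bd (single (1 :: l) 1))) = 0 := by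
      rw [hγ2 _ (bd_LL h3), bd_bd, map_zero]
    obtain ⟨c', hc', hc''⟩ := exact K hK h4 h5
    exact ⟨c', hc', hc''⟩
  · intro z hz
    rw [h2 z hz, hUv z hz]

include hf hk in
theorem st_all (hK : ∀ q, 2 ≤ q → ∀ x : HQ q K, x = 0) (m : ℕ) :
    ∃ γ η η', St K f (m + 1) γ η η' := by
  induction m with
  | zero => exact st_one hf hk
  | succ m ih =>
    obtain ⟨γ, η, η', h⟩ := ih
    obtain ⟨γ', η'', h', -⟩ := st_succ hf hk (hK (m + 1 + 1) (by omega)) h
    exact ⟨γ', η'', η, h'⟩

include hf in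
theorem Equi.factor {V : LC S →ₗ[ℚ] CC K} (h : Equi K f V) (z : LC S) :
    qC K (V z) = qC K (V (ss (qq z))) := by
  have h1 := Pool.Agent.R615.KU.factor ((qC K) ∘ₗ V) (fun s z => by
    obtain ⟨g, rfl⟩ := hf s
    rw [LinearMap.comp_apply, h.eqv, qC_tC]
    rfl) (by rw [LinearMap.comp_apply, h.nil, map_zero]) z
  exact h1

include hf hk in
theorem hq_inj' (hK : ∀ q, 2 ≤ q → ∀ x : HQ q K, x = 0) (j : ℕ) (x : HQ j G)
    (hx : hqMap f j x = 0) : x = 0 := by
  cases j with
  | zero => exact Pool.Agent.Y483.hq_zero_injective f x hx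
  | succ j =>
    obtain ⟨γ, η, η', h⟩ := st_all hf hk hK j
    obtain ⟨γ', η'', -, hγ'⟩ := st_succ hf hk (hK (j + 1 + 1) (by omega)) h
    obtain ⟨z, hz⟩ := exists_rpr (Rep.trivial ℚ G ℚ) (j + 1) x
    rw [hz.eq_zero_iff]
    obtain ⟨w, hw⟩ := (hz.hq f).eq_zero_iff.mp hx
    set u := io (j + 1) z with hu
    have hdu : dl u = 0 := dl_io_cyc hz.cyc
    have h1 : P f u = dl (io (j + 1 + 1) w) := by
      rw [hu, ← io_mp, dl_io]
      exact congrArg (io (j + 1)) hw.symm
    have hsu : ss u ∈ LL G (j + 1 + 1) := ss_LL (io_mem (j + 1) z)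
    have hrel := congrArg (qC K) (h.rel _ hsu)
    have h2 : qC K (η' (bd (ss u))) = 0 := by
      rw [h.hη'.factor Function.surjective_id, qq_bd, qq_ss, hdu, map_zero, map_zero, map_zero]
    have h3 : qC K (γ (P f (ss u))) = dl (qC K (γ' (ss (io (j + 1 + 1) w)))) := by
      rw [← ss_hom, h1]
      have h4 : dl (io (j + 1 + 1) w) = qq (bd (ss (io (j + 1 + 1) w))) := rfl
      rw [h4, ← h.hγ.factor hf, ← hγ' _ (ss_LL (io_mem _ w)), qC_bC]
    rw [map_sub, map_sub, h2, sub_zero, h3, qC_mk, qq_ss, qC_bC] at hrel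
    refine ⟨ka (j + 1 + 1) (qC K (γ' (ss (io (j + 1 + 1) w))) - qC K (η (ss u))), ?_⟩
    change dd (tQ G) (j + 1) _ = z
    rw [← ka_dl, map_sub, hrel, sub_sub_cancel, hu, ka_io]

include hf in
/-- If the rational homology of the normal subgroup `K` vanishes in all degrees above one, the
quotient map by a normal subgroup of `K` all of whose elements have positive powers in the
commutator subgroup of `K` is injective on rational homology. -/
theorem hq_inj (hk : ∀ g, f g = 1 → g ∈ K ∧ ∃ n : ℕ, 0 < n ∧ g ^ n ∈ (⁅K, K⁆ : Subgroup G))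
    (hK : ∀ q, 2 ≤ q → ∀ x : HQ q K, x = 0) (j : ℕ) (x : HQ j G)
    (hx : hqMap f j x = 0) : x = 0 :=
  hq_inj' hf (fun g hg => by
    obtain ⟨h1, n, hn, h2⟩ := hk g hg
    exact NN_root h1 hn (commutator_le h2)) hK j x hx

end

end Run7.h16.NC
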