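import Pool.Agent.R942.NV.VF
import Pool.Agent.R615.KU.Fk

/-!
The rational homology of virtually free groups
-/

set_option linter.unusedSectionVars false
set_option linter.unusedVariables false

namespace Run7.h16.NC

open Finsupp Pool.Agent.R615.KU Pool.Agent.R942.NV
open Pool.Agent.Y483 (T T_ext cone mp dd HQ hqMap Rpr exists_rpr exists_class Cyc tQ gE gE_single)

noncomputable section

variable {P : Type} [Group P]

/-- The edges as chains. -/
def ed (P : Type) : (P × P →₀ ℤ) →+ LC P :=
  Finsupp.liftAddHom fun e => (Finsupp.singleAddHom [e.1, e.2]).comp (Int.castAddHom ℚ)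

theorem ed_single (a b : P) (n : ℤ) : ed P (single (a, b) n) = single [a, b] (n : ℚ) := by
  simp [ed]

/-- The vertices as chains. -/
def vt (P : Type) : (P →₀ ℤ) →+ LC P :=
  Finsupp.liftAddHom fun a => (Finsupp.singleAddHom [a]).comp (Int.castAddHom ℚ)

theorem vt_single (a : P) (n : ℤ) : vt P (single a n) = single [a] (n : ℚ) := by
  simp [vt]

theorem bd_edge (a b : P) (r : ℚ) : bd (single [a, b] r) = single [b] r - single [a] r := by
  have h : (single [a, b] r : LC P) = r • single [a, b] 1 := by rw [smul_single, smul_eq_mul, mul_one]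
  have h1 : bd (single [b] (1 : ℚ)) = single [] 1 := by
    rw [← cn_single, bd_cn, bd_nil, map_zero, sub_zero]
  rw [h, map_smul, ← cn_single, bd_cn, h1, cn_single, smul_sub, smul_single, smul_single,
    smul_eq_mul, mul_one]

theorem bd_ed (m : P × P →₀ ℤ) : bd (ed P m) = vt P ((eP P).del m) := by
  induction m using Finsupp.induction_linear with
  | zero => simp
  | add x y hx hy => rw [map_add, map_add, map_add, map_add, hx, hy]
  | single e n =>
    obtain ⟨a, b⟩ := e
    have h : (single (a, b) n : P × P →₀ ℤ) = n • single (a, b) 1 := by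
      rw [smul_single, smul_eq_mul, mul_one]
    rw [ed_single, bd_edge, h, map_smul, eP_del, smul_sub, smul_single, smul_single, map_sub,
      vt_single, vt_single, smul_eq_mul, mul_one]

theorem P_ed (g : P) (m : P × P →₀ ℤ) :
    Pool.Agent.R615.KU.P (fun y => g * y) (ed P m) = ed P (gE g m) := by
  induction m using Finsupp.induction_linear with
  | zero => simp
  | add x y hx hy => rw [map_add, map_add, map_add, map_add, hx, hy]
  | single e n =>
    obtain ⟨a, b⟩ := e
    rw [ed_single, P_single, gE_single]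
    change _ = ed P (single (g * a, g * b) n)
    rw [ed_single]
    rfl

theorem P_vt (g : P) (m : P →₀ ℤ) (a : P) :
    Pool.Agent.R615.KU.P (fun y => g * y) (vt P (single a 1)) = single [g * a] 1 := by
  rw [vt_single, P_single, Int.cast_one]
  rfl

variable {k : ℕ} (F : Flow P k)

/-- The values of the chain map given by the flow. -/
def thl : List P → LC P
  | [] => single [] 1
  | [a] => single [a] 1
  | [a, b] => (k : ℚ)⁻¹ • Pool.Agent.R615.KU.P (fun y => a * y) (ed P (F.D (a⁻¹ * b)))
  | _ :: _ :: _ :: _ => 0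

/-- The chain map given by the flow. -/
def Th : LC P →ₗ[ℚ] LC P := Finsupp.linearCombination ℚ (thl F)

theorem Th_single (l : List P) : Th F (single l 1) = thl F l := by
  simp [Th]

theorem Th_zero {m : ℕ} {z : LC P} (hz : z ∈ LL P (m + 3)) : Th F z = 0 := by
  refine LL_ext (f := Th F) (g := 0) (fun l hl => ?_) hz
  obtain ⟨a, l, rfl⟩ := List.exists_cons_of_length_eq_add_one hl
  obtain ⟨b, l, rfl⟩ := List.exists_cons_of_length_eq_add_one (Nat.succ.inj hl)
  obtain ⟨c, l, rfl⟩ := List.exists_cons_of_length_eq_add_one (Nat.succ.inj (Nat.succ.inj hl))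
  rw [Th_single]
  rfl

theorem Th_nat (g : P) (z : LC P) : Th F (Pool.Agent.R615.KU.P (fun y => g * y) z) =
    Pool.Agent.R615.KU.P (fun y => g * y) (Th F z) := by
  have h : (Th F) ∘ₗ (Pool.Agent.R615.KU.P (fun y => g * y)) =
      (Pool.Agent.R615.KU.P (fun y => g * y)) ∘ₗ (Th F) := by
    apply LC_ext
    intro l
    rw [LinearMap.comp_apply, LinearMap.comp_apply, P_single, Th_single, Th_single]
    match l with
    | [] =>
      change single [] 1 = Pool.Agent.R615.KU.P (fun y => g * y) (single [] 1)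
      rw [P_single]
      rfl
    | [a] =>
      change single [g * a] 1 = Pool.Agent.R615.KU.P (fun y => g * y) (single [a] 1)
      rw [P_single]
      rfl
    | [a, b] =>
      change (k : ℚ)⁻¹ • Pool.Agent.R615.KU.P (fun y => g * a * y)
        (ed P (F.D ((g * a)⁻¹ * (g * b)))) = Pool.Agent.R615.KU.P (fun y => g * y)
          ((k : ℚ)⁻¹ • Pool.Agent.R615.KU.P (fun y => a * y) (ed P (F.D (a⁻¹ * b))))
      have e : (g * a)⁻¹ * (g * b) = a⁻¹ * b := by group
      rw [e, map_smul, P_comp]
      congr 3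
      funext y
      rw [mul_assoc]
    | a :: b :: c :: l =>
      change (0 : LC P) = Pool.Agent.R615.KU.P (fun y => g * y) 0
      rw [map_zero]
  exact DFunLike.congr_fun h z

theorem bd_one' (c : P) : bd (single [c] (1 : ℚ)) = single [] 1 := by
  rw [← cn_single, bd_cn, bd_nil, map_zero, sub_zero]

theorem bd_three' (a b c : P) :
    bd (single [a, b, c] (1 : ℚ)) = single [b, c] 1 - single [a, c] 1 + single [a, b] 1 := by
  rw [← cn_single, bd_cn, bd_edge, map_sub, cn_single, cn_single]
  abel

theorem bd_Th (hk : k ≠ 0) (z : LC P) : bd (Th F z) = Th F (bd z) := by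
  have hk' : (k : ℚ) ≠ 0 := by exact_mod_cast hk
  have h : bd ∘ₗ (Th F) = (Th F) ∘ₗ bd := by
    apply LC_ext
    intro l
    rw [LinearMap.comp_apply, LinearMap.comp_apply, Th_single]
    match l with
    | [] =>
      change bd (single [] 1) = _
      rw [bd_nil, map_zero]
    | [a] =>
      change bd (single [a] 1) = _
      rw [bd_one', Th_single]
      rfl
    | [a, b] =>
      change bd ((k : ℚ)⁻¹ • Pool.Agent.R615.KU.P (fun y => a * y) (ed P (F.D (a⁻¹ * b)))) = _
      rw [map_smul, ← P_bd, bd_ed, F.del, map_zsmul, map_sub, map_zsmul, map_sub,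
        P_vt _ 0, P_vt _ 0, mul_one, mul_inv_cancel_left, bd_edge, map_sub, Th_single, Th_single]
      change (k : ℚ)⁻¹ • ((k : ℤ) • (single [b] 1 - single [a] 1)) = single [b] 1 - single [a] 1
      rw [← Int.cast_smul_eq_zsmul ℚ (k : ℤ), smul_smul, Int.cast_natCast, inv_mul_cancel₀ hk',
        one_smul]
    | [a, b, c] =>
      change bd (0 : LC P) = _
      rw [map_zero, bd_three', map_add, map_sub, Th_single, Th_single, Th_single]
      change 0 = (k : ℚ)⁻¹ • Pool.Agent.R615.KU.P (fun y => b * y) (ed P (F.D (b⁻¹ * c))) -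
        (k : ℚ)⁻¹ • Pool.Agent.R615.KU.P (fun y => a * y) (ed P (F.D (a⁻¹ * c))) +
        (k : ℚ)⁻¹ • Pool.Agent.R615.KU.P (fun y => a * y) (ed P (F.D (a⁻¹ * b)))
      have e : a⁻¹ * c = (a⁻¹ * b) * (b⁻¹ * c) := by group
      have e2 : Pool.Agent.R615.KU.P (fun y => a * y) (ed P (gE (a⁻¹ * b) (F.D (b⁻¹ * c)))) =
          Pool.Agent.R615.KU.P (fun y => b * y) (ed P (F.D (b⁻¹ * c))) := by
        rw [← P_ed, P_comp]
        congr 2
        funext y
        group
      rw [e, F.mul (a⁻¹ * b), map_add, map_add, e2, smul_add]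
      abel
    | a :: b :: c :: d :: l =>
      change bd (0 : LC P) = _
      have h1 : (single (a :: b :: c :: d :: l) 1 : LC P) ∈ LL P (l.length + 3 + 1) :=
        single_mem_LL rfl 1
      rw [map_zero, Th_zero F (bd_LL h1)]
  exact DFunLike.congr_fun h z

include F in
/-- A group with a flow of nonzero degree has no rational homology above degree one. -/
theorem flow_vanish (hk : k ≠ 0) (j : ℕ) (hj : 2 ≤ j) (x : HQ j P) : x = 0 := by
  obtain ⟨i, rfl⟩ : ∃ i, j = i + 2 := ⟨j - 2, by omega⟩
  obtain ⟨z, hz⟩ := exists_rpr (Rep.trivial ℚ P ℚ) (i + 2) x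
  rw [hz.eq_zero_iff]
  set u := io (i + 2) z with hu
  have hdu : dl u = 0 := dl_io_cyc hz.cyc
  have hsu : ss u ∈ LL P (i + 2 + 1) := ss_LL (io_mem (i + 2) z)
  have hH := HH_succ (Th F) (Th_single F []) (bd_Th F hk) (i + 2) hsu
  have h2 : qq (HH (Th F) (i + 2) (bd (ss u))) = 0 := by
    have h3 := factor (qq ∘ₗ (HH (Th F) (i + 2))) (fun g z => by
      rw [LinearMap.comp_apply, HH_nat (Th F) (fun y => g * y) (Th_nat F g), qq_P]; rfl) (by
      rw [LinearMap.comp_apply, HH_nil, map_zero]) (bd (ss u))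
    have h4 : qq (bd (ss u)) = 0 := hdu
    rw [h4, map_zero, map_zero] at h3
    exact h3
  have h9 : u = dl (qq (HH (Th F) (i + 2 + 1) (ss u))) := by
    have h10 := congrArg qq hH
    rw [Th_zero F (m := i) hsu, sub_zero, map_add, qq_bd, h2, add_zero, qq_ss] at h10
    exact h10.symm
  refine ⟨ka (i + 2 + 1) (qq (HH (Th F) (i + 2 + 1) (ss u))), ?_⟩
  change dd (tQ P) (i + 2) _ = z
  rw [← ka_dl, ← h9, hu, ka_io]

/-- Virtually free groups have no rational homology above degree one. -/
theorem vf_vanish (H : Subgroup P) [H.FiniteIndex] [IsFreeGroup H] (j : ℕ) (hj : 2 ≤ j)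
    (x : HQ j P) : x = 0 :=
  flow_vanish (flowFin (flowFree H)) (by rw [mul_one]; exact Subgroup.FiniteIndex.index_ne_zero)
    j hj x

end

end Run7.h16.NC
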