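import Pool.Agent.Run7.h16.NC.Def
import Pool.Agent.Run7.h16.NC.Fl
import Pool.Agent.Run7.h16.LH.Final

/-!
The closure properties for the class of the detecting groups
-/

set_option linter.unusedSectionVars false
set_option linter.unusedVariables false

namespace Run7.h16.NC

open CategoryTheory Monoid Pool.Agent.Y483 Pool.Agent.Y75.MQ Pool.Agent.Y483.PW
  Pool.Agent.Y110.KW Pool.Agent.R615.KU Run7.h16.NV Run7.h16.LH Pool.Agent.R942.NV

open scoped commutatorElement

noncomputable section

variable {ε : ℤˣ}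

section Sym

variable {V Q : Type} [Group Q] [MulAction Q V]

/-- The exponents of the generators in a word. -/
def ex (n : FreeGroup V) : V →₀ ℤ :=
  FreeAbelianGroup.toFinsupp (Additive.ofMul (Abelianization.of n))

theorem ex_mul (n m : FreeGroup V) : ex (n * m) = ex n + ex m := by
  change FreeAbelianGroup.toFinsupp (Additive.ofMul (Abelianization.of (n * m))) = _
  rw [map_mul, ofMul_mul]
  exact map_add _ _ _

theorem ex_one : ex (1 : FreeGroup V) = 0 := by
  change FreeAbelianGroup.toFinsupp (Additive.ofMul (Abelianization.of 1)) = _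
  rw [map_one, ofMul_one]
  exact map_zero _

theorem ex_of (v : V) : ex (FreeGroup.of v) = Finsupp.single v 1 :=
  FreeAbelianGroup.toFinsupp_of v

theorem ex_surjective : Function.Surjective (ex : FreeGroup V → (V →₀ ℤ)) := by
  intro m
  obtain ⟨a, ha⟩ := (FreeAbelianGroup.equivFinsupp V).surjective m
  obtain ⟨n, hn⟩ := QuotientGroup.mk'_surjective (commutator (FreeGroup V)) a.toMul
  refine ⟨n, ?_⟩
  rw [← ha]
  change FreeAbelianGroup.toFinsupp (Additive.ofMul (QuotientGroup.mk' _ n)) =
    FreeAbelianGroup.toFinsupp a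
  rw [hn]
  rfl

theorem ex_zero {n : FreeGroup V} (h : ex n = 0) : n ∈ commutator (FreeGroup V) := by
  have h1 : (FreeAbelianGroup.equivFinsupp V) (Additive.ofMul (Abelianization.of n)) = 0 := h
  have h2 : Additive.ofMul (Abelianization.of n) = 0 :=
    (FreeAbelianGroup.equivFinsupp V).map_eq_zero_iff.mp h1
  have h3 : Abelianization.of n = 1 := h2
  exact (QuotientGroup.eq_one_iff n).mp h3

/-- The abelianization of the free group. -/
def aF (V : Type) : FreeGroup V →* RF (Multiplicative ℤ) V where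
  toFun n := ⟨fun v => Multiplicative.ofAdd (ex n v), by
    refine (ex n).support.finite_toSet.subset ?_
    intro v hv
    rw [Finset.mem_coe, Finsupp.mem_support_iff]
    exact hv⟩
  map_one' := by
    apply Subtype.ext
    funext v
    change Multiplicative.ofAdd (ex 1 v) = 1
    rw [ex_one]
    rfl
  map_mul' n m := by
    apply Subtype.ext
    funext v
    change Multiplicative.ofAdd (ex (n * m) v) = _
    rw [ex_mul]
    rfl

theorem aF_apply (n : FreeGroup V) (v : V) : (aF V n).1 v = Multiplicative.ofAdd (ex n v) := rfl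

variable (φ : Q →* MulAut (FreeGroup V))

theorem ex_phi (hφ : ∀ (q : Q) (v : V), ∃ w : FreeGroup V,
    φ q (FreeGroup.of v) = w * FreeGroup.of (q • v) * w⁻¹) (q : Q) (n : FreeGroup V) :
    aF V (φ q n) = rfAct (Multiplicative ℤ) V Q q (aF V n) := by
  have h : (aF V).comp (φ q).toMonoidHom =
      (rfAct (Multiplicative ℤ) V Q q).toMonoidHom.comp (aF V) := by
    apply FreeGroup.ext_hom
    intro v
    obtain ⟨w, hw⟩ := hφ q v
    change aF V (φ q (FreeGroup.of v)) = rfAct (Multiplicative ℤ) V Q q (aF V (FreeGroup.of v))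
    rw [hw, map_mul, map_mul, map_inv]
    apply Subtype.ext
    funext u
    change (aF V w).1 u * (aF V (FreeGroup.of (q • v))).1 u * ((aF V w).1 u)⁻¹ =
      (aF V (FreeGroup.of v)).1 (q⁻¹ • u)
    rw [mul_inv_cancel_comm, aF_apply, aF_apply, ex_of, ex_of]
    congr 1
    classical
    rw [Finsupp.single_apply, Finsupp.single_apply]
    by_cases h1 : q • v = u
    · rw [if_pos h1, if_pos]
      rw [← h1, inv_smul_smul]
    · rw [if_neg h1, if_neg]
      intro h2
      apply h1
      rw [h2, smul_inv_smul]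
  exact DFunLike.congr_fun h n

/-- The homomorphism to the wreath product. -/
def fW (hφ : ∀ (q : Q) (v : V), ∃ w : FreeGroup V,
    φ q (FreeGroup.of v) = w * FreeGroup.of (q • v) * w⁻¹) :
    FreeGroup V ⋊[φ] Q →* RW (Multiplicative ℤ) V Q :=
  SemidirectProduct.map (aF V) (MonoidHom.id Q) (fun q => MonoidHom.ext fun n => ex_phi φ hφ q n)

theorem fW_surjective (hφ : ∀ (q : Q) (v : V), ∃ w : FreeGroup V,
    φ q (FreeGroup.of v) = w * FreeGroup.of (q • v) * w⁻¹) : Function.Surjective (fW φ hφ) := by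
  rintro ⟨n, q⟩
  let m : V →₀ ℤ := Finsupp.ofSupportFinite (fun v => (n.1 v).toAdd) (by
    refine Set.Finite.subset n.2 ?_
    intro v hv
    exact hv)
  obtain ⟨a, ha⟩ := ex_surjective m
  refine ⟨⟨a, q⟩, ?_⟩
  apply SemidirectProduct.ext
  · apply Subtype.ext
    funext v
    change Multiplicative.ofAdd (ex a v) = n.1 v
    rw [ha]
    rfl
  · rfl

end Sym

theorem oneDim_of_flow {K : Type} [Group K] {k : ℕ} (hk : k ≠ 0) (F : Flow K k) : OneDim K :=
  fun q hq x => flow_vanish F hk q hq x

theorem quotClosed_detL (ε : ℤˣ) : QuotClosed (fun G _ => DetL ε G) := by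
  have hquot : ∀ (G : Type) [Group G] (K L : Subgroup G) [K.Normal] [L.Normal], OneDim K → L ≤ K →
      (∀ g ∈ L, ∃ n : ℕ, 0 < n ∧ g ^ n ∈ (⁅K, K⁆ : Subgroup G)) → DetL ε (G ⧸ L) → DetL ε G := by
    intro G _ K L _ _ hK hLK hL h
    refine detL_quot K (QuotientGroup.mk' L) (QuotientGroup.mk'_surjective L) (fun g hg => ?_)
      (fun q hq x => hK q hq x) h
    have hg' : g ∈ L := (QuotientGroup.eq_one_iff g).mp hg
    exact ⟨hLK hg', hL g hg'⟩
  have hcomm : ∀ (G : Type) [Group G] (K : Subgroup G) [K.Normal], OneDim K →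
      DetL ε (G ⧸ (⁅K, K⁆ : Subgroup G)) → DetL ε G := by
    intro G _ K _ hK h
    exact hquot G K ⁅K, K⁆ hK (Subgroup.commutator_le_left K K)
      (fun g hg => ⟨1, one_pos, by rwa [pow_one]⟩) h
  constructor
  · exact hquot
  · intro G _ K _ F _ _ h
    exact hcomm G K (fun q hq x => vf_vanish F q hq x) h
  · intro P _ F _ _ S L _ _ hL hdim
    have hS : DetL ε (P ⧸ (⁅S, S⁆ : Subgroup P)) := (closed_detL ε).magnus P F S
    let f : P ⧸ L →* P ⧸ (⁅S, S⁆ : Subgroup P) :=
      QuotientGroup.map L ⁅S, S⁆ (MonoidHom.id P) hL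
    have : (S.map (QuotientGroup.mk' L)).Normal :=
      Subgroup.Normal.map inferInstance _ (QuotientGroup.mk'_surjective L)
    refine detL_quot (S.map (QuotientGroup.mk' L)) f ?_ ?_ (fun q hq x => hdim q hq x) hS
    · intro y
      obtain ⟨p, rfl⟩ := QuotientGroup.mk'_surjective _ y
      exact ⟨(p : P ⧸ L), rfl⟩
    · intro g hg
      obtain ⟨p, rfl⟩ := QuotientGroup.mk'_surjective _ g
      have h1 : ((p : P) : P ⧸ (⁅S, S⁆ : Subgroup P)) = 1 := hg
      have h2 : p ∈ (⁅S, S⁆ : Subgroup P) := (QuotientGroup.eq_one_iff p).mp h1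
      refine ⟨Subgroup.mem_map_of_mem _ (Subgroup.commutator_le_left S S h2), 1, one_pos, ?_⟩
      rw [pow_one, ← Subgroup.map_commutator]
      exact Subgroup.mem_map_of_mem _ h2
  · intro V Q _ _ φ hφ hσ
    have hW : DetL ε (RW (Multiplicative ℤ) V Q) := by
      have h1 : DetL ε (FW (Multiplicative ℤ) V Q) :=
        (closed_detL ε).wreathProd (Multiplicative ℤ) V Q (detL_comm _) hσ
      exact detL_iff.mpr ((detL_iff.mp h1).of_retract fwFrom fwTo rfl)
    let e : FreeGroup V ≃* (SemidirectProduct.inl : FreeGroup V →* FreeGroup V ⋊[φ] Q).range :=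
      MonoidHom.ofInjective SemidirectProduct.inl_injective
    have : IsFreeGroup (SemidirectProduct.inl : FreeGroup V →* FreeGroup V ⋊[φ] Q).range :=
      IsFreeGroup.ofMulEquiv e
    have : (SemidirectProduct.inl : FreeGroup V →* FreeGroup V ⋊[φ] Q).range.Normal := by
      rw [SemidirectProduct.range_inl_eq_ker_rightHom]
      infer_instance
    refine detL_quot (SemidirectProduct.inl : FreeGroup V →* FreeGroup V ⋊[φ] Q).range
      (fW φ hφ) (fW_surjective φ hφ) ?_
      (fun q hq x => oneDim_of_flow one_ne_zero (flowFree _) q hq x) hW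
    rintro ⟨n, q⟩ hg
    have h1 : q = 1 := congrArg SemidirectProduct.right hg
    have h2 : aF V n = 1 := congrArg SemidirectProduct.left hg
    subst h1
    have h3 : n ∈ commutator (FreeGroup V) := by
      apply ex_zero
      ext v
      exact congrArg (fun m : RF (Multiplicative ℤ) V => (m.1 v).toAdd) h2
    refine ⟨⟨n, rfl⟩, 1, one_pos, ?_⟩
    rw [pow_one, MonoidHom.range_eq_map, ← Subgroup.map_commutator]
    exact ⟨n, h3, rfl⟩

end

end Run7.h16.NC
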