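import Pool.Agent.R615.KU.Fk

/-!
Coinvariants of chains under a normal subgroup
-/

set_option linter.unusedSectionVars false
set_option linter.unusedVariables false

namespace Run7.h16.NC

open Finsupp Pool.Agent.R615.KU
open Pool.Agent.Y483 (T T_ext cone mp dd HQ hqMap Rpr exists_rpr exists_class Cyc tQ)

noncomputable section

theorem LL_mem {V : Type*} {M : Type*} [AddCommGroup M] [Module ℚ M] {n : ℕ} (F : LC V →ₗ[ℚ] M)
    (N : Submodule ℚ M) (h : ∀ l : List V, l.length = n → F (single l 1) ∈ N) {z : LC V}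
    (hz : z ∈ LL V n) : F z ∈ N := by
  have h1 : LL V n ≤ N.comap F := by
    unfold LL
    rw [Finsupp.supported_eq_span_single]
    apply Submodule.span_le.mpr
    rintro _ ⟨l, hl, rfl⟩
    exact h l hl
  exact h1 hz

theorem P_LL {V W : Type*} (f : V → W) {n : ℕ} {z : LC V} (hz : z ∈ LL V n) : P f z ∈ LL W n := by
  apply LL_map (P f) _ hz
  intro l hl
  rw [P_single]
  exact single_mem_LL (by rw [List.length_map, hl]) _

theorem HH_LL {V : Type*} (Θ : LC V →ₗ[ℚ] LC V)
    (hΘ : ∀ m, ∀ z ∈ LL V m, Θ z ∈ LL V m) (n : ℕ) : ∀ m, ∀ z ∈ LL V m, HH Θ n z ∈ LL V (m + 1) := by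
  induction n with
  | zero =>
    intro m z hz
    apply LL_map (HH Θ 0) _ hz
    intro l _
    rw [HH_single]
    exact Submodule.zero_mem _
  | succ n ih =>
    intro m z hz
    apply LL_map (HH Θ (n + 1)) _ hz
    intro l hl
    cases l with
    | nil => rw [HH_nil]; exact Submodule.zero_mem _
    | cons v l =>
      rw [HH_cons]
      have h0 : (single (v :: l) 1 : LC V) ∈ LL V m := single_mem_LL hl 1
      obtain ⟨k, rfl⟩ : ∃ k, m = k + 1 := ⟨l.length, by rw [← hl]; rfl⟩
      exact cn_LL v (Submodule.sub_mem _ (Submodule.sub_mem _ h0 (hΘ _ _ h0))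
        (ih k _ (bd_LL h0)))

section

variable {G : Type} [Group G] (K : Subgroup G)

/-- The chains that vanish in the coinvariants. -/
def J : Submodule ℚ (LC G) :=
  Submodule.span ℚ {w | ∃ k ∈ K, ∃ z : LC G, w = P (fun y => k * y) z - z}

variable {K}

theorem J_mem {k : G} (hk : k ∈ K) (z : LC G) : P (fun y => k * y) z - z ∈ J K :=
  Submodule.subset_span ⟨k, hk, z, rfl⟩

theorem J_map {M : Type*} [AddCommGroup M] [Module ℚ M] (F : LC G →ₗ[ℚ] M) (N : Submodule ℚ M)
    (h : ∀ k ∈ K, ∀ z, F (P (fun y => k * y) z) - F z ∈ N) {w : LC G} (hw : w ∈ J K) :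
    F w ∈ N := by
  have h1 : J K ≤ N.comap F := by
    apply Submodule.span_le.mpr
    rintro _ ⟨k, hk, z, rfl⟩
    change F (P (fun y => k * y) z - z) ∈ N
    rw [map_sub]
    exact h k hk z
  exact h1 hw

theorem J_bd : J K ≤ (J K).comap bd := fun w hw => J_map bd (J K) (fun k hk z => by
  rw [← P_bd]
  exact J_mem hk _) hw

theorem J_P [K.Normal] (g : G) : J K ≤ (J K).comap (P (fun y => g * y)) := fun w hw =>
  J_map (P (fun y => g * y)) (J K) (fun k hk z => by
    have h1 : P (fun y => g * y) (P (fun y => k * y) z) =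
        P (fun y => (g * k * g⁻¹) * y) (P (fun y => g * y) z) := by
      rw [P_comp, P_comp]
      congr 2
      funext y
      group
    rw [h1]
    exact J_mem (Subgroup.Normal.conj_mem inferInstance k hk g) _) hw

variable (K)

/-- The coinvariants of the chains. -/
abbrev CC : Type := LC G ⧸ J K

/-- The differential of the coinvariants. -/
def bC : CC K →ₗ[ℚ] CC K := (J K).mapQ (J K) bd J_bd

/-- The chains of a given degree. -/
def LLC (n : ℕ) : Submodule ℚ (CC K) := (LL G n).map (J K).mkQ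

variable {K}

theorem bC_mk (z : LC G) : bC K ((J K).mkQ z) = (J K).mkQ (bd z) := rfl

theorem mk_LLC {n : ℕ} {z : LC G} (hz : z ∈ LL G n) : (J K).mkQ z ∈ LLC K n :=
  Submodule.mem_map_of_mem hz

theorem bC_bC (c : CC K) : bC K (bC K c) = 0 := by
  obtain ⟨z, rfl⟩ := (J K).mkQ_surjective c
  rw [bC_mk, bC_mk, bd_bd, map_zero]

section normal

variable [K.Normal]

variable (K) in
/-- The action of the group on the coinvariants. -/
def tC (g : G) : CC K →ₗ[ℚ] CC K := (J K).mapQ (J K) (P (fun y => g * y)) (J_P g)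

theorem tC_mk (g : G) (z : LC G) : tC K g ((J K).mkQ z) = (J K).mkQ (P (fun y => g * y) z) := rfl

theorem tC_mul (a b : G) (c : CC K) : tC K (a * b) c = tC K a (tC K b c) := by
  obtain ⟨z, rfl⟩ := (J K).mkQ_surjective c
  rw [tC_mk, tC_mk, tC_mk, P_comp]
  congr 3
  funext y
  rw [mul_assoc]

theorem tC_of_mem {k : G} (hk : k ∈ K) (c : CC K) : tC K k c = c := by
  obtain ⟨z, rfl⟩ := (J K).mkQ_surjective c
  rw [tC_mk, ← sub_eq_zero, ← map_sub, Submodule.mkQ_apply, Submodule.Quotient.mk_eq_zero]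
  exact J_mem hk z

theorem tC_congr {a b : G} (h : a⁻¹ * b ∈ K) (c : CC K) : tC K a c = tC K b c := by
  have h1 : b = a * (a⁻¹ * b) := by group
  rw [h1, tC_mul, tC_of_mem h]

theorem bC_tC (g : G) (c : CC K) : bC K (tC K g c) = tC K g (bC K c) := by
  obtain ⟨z, rfl⟩ := (J K).mkQ_surjective c
  rw [tC_mk, bC_mk, bC_mk, tC_mk, P_bd]

theorem tC_LLC (g : G) {n : ℕ} {c : CC K} (hc : c ∈ LLC K n) : tC K g c ∈ LLC K n := by
  obtain ⟨z, hz, rfl⟩ := hc
  rw [tC_mk]
  exact mk_LLC (P_LL _ hz)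

end normal

theorem bC_LLC {n : ℕ} {c : CC K} (hc : c ∈ LLC K (n + 1)) : bC K c ∈ LLC K n := by
  obtain ⟨z, hz, rfl⟩ := hc
  rw [bC_mk]
  exact mk_LLC (bd_LL hz)

/-- The map to the inhomogeneous chains. -/
theorem J_qq : J K ≤ LinearMap.ker (qq : LC G →ₗ[ℚ] LC G) := by
  intro w hw
  have h1 := J_map (qq : LC G →ₗ[ℚ] LC G) ⊥ (fun k _ z => by
    rw [qq_P, sub_self]
    exact Submodule.zero_mem _) hw
  exact h1

variable (K) in
/-- The map to the inhomogeneous chains. -/
def qC : CC K →ₗ[ℚ] LC G := (J K).liftQ qq J_qq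

theorem qC_mk (z : LC G) : qC K ((J K).mkQ z) = qq z := rfl

theorem qC_bC (c : CC K) : qC K (bC K c) = dl (qC K c) := by
  obtain ⟨z, rfl⟩ := (J K).mkQ_surjective c
  rw [bC_mk, qC_mk, qC_mk, qq_bd]

theorem qC_tC [K.Normal] (g : G) (c : CC K) : qC K (tC K g c) = qC K c := by
  obtain ⟨z, rfl⟩ := (J K).mkQ_surjective c
  rw [tC_mk, qC_mk, qC_mk, qq_P]

end

/-- A homogeneous chain and its normalisation agree in the coinvariants. -/
theorem sub_ss_mem {S : Type} [Group S] {n : ℕ} {y : LC S} (hy : y ∈ LL S (n + 1)) :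
    y - ss (qq y) ∈ J (⊤ : Subgroup S) := by
  have h1 := LL_mem ((LinearMap.id : LC S →ₗ[ℚ] LC S) - ss ∘ₗ qq) (J (⊤ : Subgroup S))
    (fun l hl => by
      obtain ⟨x, l, rfl⟩ := List.exists_cons_of_length_eq_add_one hl
      rw [LinearMap.sub_apply, LinearMap.comp_apply, LinearMap.id_apply, qq_cons, ss_single]
      have h2 : (single (x :: l) 1 : LC S) =
          P (fun y => x * y) (single (1 :: sums 1 (diffs x l)) 1) := by
        rw [P_single, List.map_cons, map_sums, mul_one, sums_diffs]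
      have h3 := J_mem (Subgroup.mem_top x) (single (1 :: sums 1 (diffs x l)) 1)
      rw [← h2] at h3
      exact h3) hy
  exact h1

section exact

variable {G : Type} [Group G] (K : Subgroup G) [K.Normal]

/-- A retraction of `G` to `K` that is compatible with left translations. -/
def rr (g : G) : K := ⟨g * (Quotient.out (g : G ⧸ K))⁻¹, by
  have h1 : ((Quotient.out (g : G ⧸ K) : G) : G ⧸ K) = (g : G ⧸ K) := QuotientGroup.out_eq' _
  have h2 : (Quotient.out (g : G ⧸ K) : G)⁻¹ * g ∈ K := QuotientGroup.eq.1 h1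
  have h3 := Subgroup.Normal.mem_comm (inferInstance : K.Normal) h2
  exact h3⟩

theorem rr_mul (k : K) (g : G) : rr K (k * g) = k * rr K g := by
  apply Subtype.ext
  have h1 : (((k : G) * g : G) : G ⧸ K) = (g : G ⧸ K) := by
    rw [QuotientGroup.eq]
    have h2 : ((k : G) * g)⁻¹ * g = g⁻¹ * (k : G)⁻¹ * g := by group
    rw [h2]
    have h3 := Subgroup.Normal.conj_mem (inferInstance : K.Normal) (k : G)⁻¹ (K.inv_mem k.2) g⁻¹
    rwa [inv_inv] at h3
  change (k : G) * g * (Quotient.out (((k : G) * g : G) : G ⧸ K))⁻¹ =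
    k * (g * (Quotient.out (g : G ⧸ K))⁻¹)
  rw [h1, mul_assoc]

/-- The coinvariants are exact in the degrees in which the homology of `K` vanishes. -/
theorem exact {q : ℕ} (hK : ∀ x : HQ q K, x = 0) {c : CC K} (hc : c ∈ LLC K (q + 1))
    (hb : bC K c = 0) : ∃ c' ∈ LLC K (q + 2), bC K c' = c := by
  obtain ⟨z, hz, rfl⟩ := hc
  rw [bC_mk, Submodule.mkQ_apply, Submodule.Quotient.mk_eq_zero] at hb
  let Θ : LC G →ₗ[ℚ] LC G := P (fun g => ((rr K g : K) : G))
  have hΘ0 : Θ (single [] 1) = single [] 1 := by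
    change P _ _ = _
    rw [P_single, List.map_nil]
  have hΘb : ∀ z, bd (Θ z) = Θ (bd z) := fun z => (P_bd _ z).symm
  have hΘn : ∀ k ∈ K, ∀ z, Θ (P (fun y => k * y) z) = P (fun y => k * y) (Θ z) := by
    intro k hk z
    change P _ (P _ z) = P _ (P _ z)
    rw [P_comp, P_comp]
    congr 2
    funext y
    have h1 := rr_mul K ⟨k, hk⟩ y
    exact congrArg Subtype.val h1
  have h1 := HH_succ Θ hΘ0 hΘb q hz
  have h2 : HH Θ q (bd z) ∈ J K := J_map (HH Θ q) (J K) (fun k hk w => by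
    rw [HH_nat Θ _ (fun v => hΘn k hk v)]
    exact J_mem hk _) hb
  -- the restriction to `K`
  let y : LC K := P (rr K) z
  have hy : y ∈ LL K (q + 1) := P_LL _ hz
  have hby : bd y ∈ J (⊤ : Subgroup K) := by
    change bd (P (rr K) z) ∈ _
    rw [← P_bd]
    refine J_map (P (rr K)) (J (⊤ : Subgroup K)) (fun k hk w => ?_) hb
    have h3 : P (rr K) (P (fun y => k * y) w) = P (fun y => (⟨k, hk⟩ : K) * y) (P (rr K) w) := by
      rw [P_comp, P_comp]
      congr 2
      funext y
      exact rr_mul K ⟨k, hk⟩ y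
    rw [h3]
    exact J_mem (Subgroup.mem_top _) _
  have hd : dl (qq y) = 0 := by
    rw [← qq_bd]
    exact J_qq hby
  obtain ⟨x, hx⟩ := exists_class (A := Rep.trivial ℚ K ℚ) q (ka q (qq y)) (ka_cyc hd)
  obtain ⟨w0, hw0⟩ := hx.eq_zero_iff.mp (hK x)
  let w : LC K := io (q + 1) w0
  have hw : dl w = qq y := by
    change dl (io (q + 1) w0) = _
    rw [dl_io]
    have h4 : dd (tQ K) q w0 = ka q (qq y) := hw0
    rw [h4, io_ka_of_mem (qq_LL hy)]
  have hssw : ss w ∈ LL K (q + 2) := ss_LL (io_mem (q + 1) w0)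
  have hy' : y - bd (ss w) ∈ J (⊤ : Subgroup K) := by
    have h5 := sub_ss_mem (Submodule.sub_mem _ hy (bd_LL hssw))
    have h6 : qq (y - bd (ss w)) = 0 := by
      rw [map_sub, qq_bd, qq_ss, hw, sub_self]
    rw [h6, map_zero, sub_zero] at h5
    exact h5
  have h7 : P (fun k : K => (k : G)) (y - bd (ss w)) ∈ J K :=
    J_map (P (fun k : K => (k : G))) (J K) (fun k _ v => by
      have h8 : P (fun k : K => (k : G)) (P (fun y => k * y) v) =
          P (fun y => (k : G) * y) (P (fun k : K => (k : G)) v) := by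
        rw [P_comp, P_comp]
        rfl
      rw [h8]
      exact J_mem k.2 _) hy'
  refine ⟨(J K).mkQ (P (fun k : K => (k : G)) (ss w) + HH Θ (q + 1) z),
    mk_LLC (Submodule.add_mem _ (P_LL _ hssw)
      (HH_LL Θ (fun m z hz => P_LL _ hz) (q + 1) (q + 1) z hz)), ?_⟩
  rw [bC_mk, ← sub_eq_zero, ← map_sub, Submodule.mkQ_apply, Submodule.Quotient.mk_eq_zero]
  have h9 : Θ z = P (fun k : K => (k : G)) y := by
    change P _ z = P _ (P _ z)
    rw [P_comp]
  have h10 : bd (P (fun k : K => (k : G)) (ss w) + HH Θ (q + 1) z) - z =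
      - P (fun k : K => (k : G)) (y - bd (ss w)) - HH Θ q (bd z) := by
    have h11 : bd (HH Θ (q + 1) z) = z - Θ z - HH Θ q (bd z) := by
      rw [← h1, add_sub_cancel_right]
    rw [map_add, h11, h9, map_sub, ← P_bd]
    abel
  rw [h10]
  exact Submodule.sub_mem _ (Submodule.neg_mem _ h7) h2

end exact

end

end Run7.h16.NC
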