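import Pool.Agent.Run7.h16.NV.Def

/-!
Closure properties of a class of groups: normal subgroups with one-dimensional rational homology.
-/

namespace Run7.h16.NC

open CategoryTheory Pool.Agent.Y483 Pool.Agent.Y75.MQ

/-- The rational homology of the group vanishes in all degrees above one. -/
def OneDim (K : Type) [Group K] : Prop :=
  ∀ q : ℕ, 2 ≤ q → ∀ x : (hq q).obj (GrpCat.of K), x = 0

/-- Closure properties of the class `C` for groups with a normal subgroup whose rational homology
vanishes above degree one. -/
structure QuotClosed (C : ∀ (G : Type) [Group G], Prop) : Prop where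
  /-- Let `K` be a normal subgroup of `G` whose rational homology vanishes above degree one, and let
  `L` be a normal subgroup of `G` contained in `K` such that each element of `L` has a positive power
  in `[K, K]`. If `G / L` is in the class then `G` is. -/
  quotient : ∀ (G : Type) [Group G] (K L : Subgroup G) [K.Normal] [L.Normal], OneDim K → L ≤ K →
    (∀ g ∈ L, ∃ n : ℕ, 0 < n ∧ g ^ n ∈ (⁅K, K⁆ : Subgroup G)) → C (G ⧸ L) → C G
  /-- If `K` is a virtually free normal subgroup of `G` and `G / [K, K]` is in the class, then `G`
  is. -/
  virtuallyFree : ∀ (G : Type) [Group G] (K : Subgroup G) [K.Normal] (F : Subgroup K)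
    [F.FiniteIndex] [IsFreeGroup F], C (G ⧸ (⁅K, K⁆ : Subgroup G)) → C G
  /-- If `P` is virtually free, `S` and `L` are normal subgroups of `P`, `L` is contained in `[S, S]`
  and the rational homology of `S / L` vanishes above degree one, then `P / L` is in the class. -/
  magnus : ∀ (P : Type) [Group P] (F : Subgroup P) [F.FiniteIndex] [IsFreeGroup F]
    (S L : Subgroup P) [S.Normal] [L.Normal], L ≤ ⁅S, S⁆ →
    OneDim (S.map (QuotientGroup.mk' L)) → C (P ⧸ L)
  /-- Let the group `Q` act on a set `V` and on the free group on `V` such that each `q` maps each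
  generator `v` to a conjugate of the generator `q v`. If the pointwise stabilizers in `Q` of the
  finite subsets of `V` are in the class, then the semidirect product is. -/
  symmetric : ∀ (V Q : Type) [Group Q] [MulAction Q V] (φ : Q →* MulAut (FreeGroup V)),
    (∀ (q : Q) (v : V), ∃ w : FreeGroup V,
      φ q (FreeGroup.of v) = w * FreeGroup.of (q • v) * w⁻¹) →
    (∀ σ : Finset V, C (fixingSubgroup Q (σ : Set V))) → C (FreeGroup V ⋊[φ] Q)

end Run7.h16.NC
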