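import Pool.Agent.Run7.h16.NC.Coinv

/-!
Equivariant maps to the coinvariants
-/

set_option linter.unusedSectionVars false
set_option linter.unusedVariables false

namespace Run7.h16.NC

open Finsupp Pool.Agent.R615.KU
open Pool.Agent.Y483 (T T_ext cone mp dd HQ hqMap Rpr exists_rpr exists_class Cyc tQ)

noncomputable section

variable {G S : Type} [Group G] [Group S] (K : Subgroup G) [K.Normal] (f : G →* S)

/-- Equivariant maps. -/
structure Equi (V : LC S →ₗ[ℚ] CC K) : Prop where
  nil : V (single [] 1) = 0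
  eqv : ∀ g z, V (P (fun y => f g * y) z) = tC K g (V z)

variable {K f}

theorem Equi.bd {V : LC S →ₗ[ℚ] CC K} (h : Equi K f V) : Equi K f (V ∘ₗ Pool.Agent.R615.KU.bd) where
  nil := by rw [LinearMap.comp_apply, bd_nil, map_zero]
  eqv g z := by
    rw [LinearMap.comp_apply, ← P_bd, h.eqv]
    rfl

theorem Equi.sub {V W : LC S →ₗ[ℚ] CC K} (h : Equi K f V) (h' : Equi K f W) :
    Equi K f (V - W) where
  nil := by rw [LinearMap.sub_apply, h.nil, h'.nil, sub_zero]
  eqv g z := by rw [LinearMap.sub_apply, h.eqv, h'.eqv, LinearMap.sub_apply, map_sub]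

variable (hf : Function.Surjective f) (hk : ∀ g, f g = 1 → g ∈ K)

include hk in
theorem tC_eq {a b : G} (h : f a = f b) (c : CC K) : tC K a c = tC K b c := by
  apply tC_congr
  apply hk
  rw [map_mul, map_inv, h, inv_mul_cancel]

include hf hk in
/-- Equivariant maps are given by their values on normalised lists. -/
theorem exists_ext (v : List S → CC K) :
    ∃ V : LC S →ₗ[ℚ] CC K, Equi K f V ∧ ∀ l, V (single (1 :: l) 1) = v l := by
  choose σ hσ using hf
  let u : List S → CC K := fun l => match l with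
    | [] => 0
    | s :: l => tC K (σ s) (v (l.map (fun y => s⁻¹ * y)))
  let V : LC S →ₗ[ℚ] CC K := Finsupp.linearCombination ℚ u
  have hV : ∀ l, V (single l 1) = u l := by
    intro l
    simp [V]
  refine ⟨V, ⟨by rw [hV], fun g z => ?_⟩, fun l => ?_⟩
  · have h : V ∘ₗ (P (fun y => f g * y)) = (tC K g) ∘ₗ V := by
      apply LC_ext
      intro l
      rw [LinearMap.comp_apply, LinearMap.comp_apply, P_single, hV, hV]
      cases l with
      | nil =>
        change (0 : CC K) = tC K g 0
        rw [map_zero]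
      | cons s l =>
        change tC K (σ (f g * s)) (v ((l.map (fun y => f g * y)).map
          (fun y => (f g * s)⁻¹ * y))) = tC K g (tC K (σ s) (v (l.map (fun y => s⁻¹ * y))))
        rw [← tC_mul, List.map_map]
        have h1 : ((fun y => (f g * s)⁻¹ * y) ∘ fun y => f g * y) = fun y => s⁻¹ * y := by
          funext y
          change (f g * s)⁻¹ * (f g * y) = _
          group
        rw [h1]
        exact tC_eq hk (by rw [hσ, map_mul, hσ]) _
    exact DFunLike.congr_fun h z
  · rw [hV]
    change tC K (σ 1) (v (l.map (fun y => (1 : S)⁻¹ * y))) = v l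
    rw [tC_of_mem (hk _ (hσ 1))]
    simp

include hf in
/-- Every list is a translate of a normalised list. -/
theorem exists_norm (s : S) (l : List S) : ∃ (g : G) (l' : List S), l'.length = l.length ∧
    (single (s :: l) 1 : LC S) = P (fun y => f g * y) (single (1 :: l') 1) := by
  obtain ⟨g, rfl⟩ := hf s
  refine ⟨g, l.map (fun y => (f g)⁻¹ * y), by rw [List.length_map], ?_⟩
  rw [P_single, List.map_cons, mul_one, List.map_map]
  congr 2
  have h1 : ((fun y => f g * y) ∘ fun y => (f g)⁻¹ * y) = fun y => y := by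
    funext y
    change f g * ((f g)⁻¹ * y) = y
    rw [mul_inv_cancel_left]
  rw [h1, List.map_id']

include hf in
/-- Properties of equivariant maps can be checked on normalised lists. -/
theorem Equi.mem {V : LC S →ₗ[ℚ] CC K} (h : Equi K f V) {m : ℕ} (N : Submodule ℚ (CC K))
    (hN : ∀ g, ∀ c ∈ N, tC K g c ∈ N)
    (hl : ∀ l : List S, l.length = m → V (single (1 :: l) 1) ∈ N) {z : LC S}
    (hz : z ∈ LL S (m + 1)) : V z ∈ N := by
  refine LL_mem V N (fun l hl' => ?_) hz
  obtain ⟨s, l, rfl⟩ := List.exists_cons_of_length_eq_add_one hl'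
  obtain ⟨g, l', h1, h2⟩ := exists_norm (f := f) hf s l
  rw [h2, h.eqv]
  apply hN
  apply hl
  rw [h1]
  simpa using hl'

include hf hk in
/-- Lifting of equivariant maps. -/
theorem exists_lift {n m : ℕ} {U : LC S →ₗ[ℚ] CC K} (hU : Equi K f U)
    (h : ∀ l : List S, l.length = m → U (single (1 :: l) 1) ∈ (LLC K n).map (bC K)) :
    ∃ V : LC S →ₗ[ℚ] CC K, Equi K f V ∧ (∀ z ∈ LL S (m + 1), V z ∈ LLC K n) ∧
      ∀ z ∈ LL S (m + 1), bC K (V z) = U z := by
  classical
  choose w hw hw' using h
  let v : List S → CC K := fun l => if hl : l.length = m then w l hl else 0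
  obtain ⟨V, hV, hVv⟩ := exists_ext hf hk v
  have hv : ∀ l (hl : l.length = m), V (single (1 :: l) 1) = w l hl := by
    intro l hl
    rw [hVv]
    simp only [v, dif_pos hl]
  refine ⟨V, hV, fun z hz => ?_, fun z hz => ?_⟩
  · refine hV.mem hf (LLC K n) (fun g c hc => tC_LLC g hc) (fun l hl => ?_) hz
    rw [hv l hl]
    exact hw l hl
  · have h1 : Equi K f ((bC K) ∘ₗ V - U) := by
      refine Equi.sub ⟨?_, fun g z => ?_⟩ hU
      · rw [LinearMap.comp_apply, hV.nil, map_zero]
      · rw [LinearMap.comp_apply, hV.eqv, bC_tC]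
        rfl
    have h2 := h1.mem hf (⊥ : Submodule ℚ (CC K)) (fun g c hc => by
      rw [Submodule.mem_bot] at hc ⊢
      rw [hc, map_zero]) (fun l hl => by
      rw [Submodule.mem_bot, LinearMap.sub_apply, LinearMap.comp_apply, hv l hl, hw' l hl,
        sub_self]) hz
    rw [Submodule.mem_bot, LinearMap.sub_apply, sub_eq_zero] at h2
    exact h2

end

end Run7.h16.NC
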